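import Mathlib

set_option autoImplicit false

/-! A closed subalgebra of a `C(X)` whose spectrum is countably generated although its Gelfand
space is not separable. -/

namespace Pool.Agent.Results.MP_3ada3c_an.NotSeparable

open Filter Topology WeakDual

/-! ### The algebra `P` on the circle -/

/-- The coordinate function on the circle. -/
noncomputable def zc : C(Circle, ℂ) := ⟨fun z => (z : ℂ), by fun_prop⟩

/-- The closure of the polynomials in `C(𝕋)`. -/
noncomputable def P : Subalgebra ℂ C(Circle, ℂ) := (Algebra.adjoin ℂ {zc}).topologicalClosure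

lemma isClosed_P : IsClosed (P : Set C(Circle, ℂ)) := Subalgebra.isClosed_topologicalClosure _

lemma zc_mem : zc ∈ P :=
  Subalgebra.le_topologicalClosure _ (Algebra.subset_adjoin rfl)

instance : CompleteSpace P := isClosed_P.completeSpace_coe

/-- Every polynomial `p` satisfies `‖z p(z) - 1‖ ≥ 1` on the circle. -/
lemma zc_mul_ne (p : Polynomial ℂ) (h : ∀ z : Circle, ‖(z : ℂ) * p.eval (z : ℂ) - 1‖ < 1) :
    False := by
  -- the maximum on the circle is attained
  obtain ⟨z₀, hz₀⟩ := (isCompact_univ (X := Circle)).exists_isMaxOn ⟨1, trivial⟩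
    (f := fun z : Circle => ‖(z : ℂ) * p.eval (z : ℂ) - 1‖) (by fun_prop)
  set C := ‖(z₀ : ℂ) * p.eval (z₀ : ℂ) - 1‖ with hC
  have h1 : ∀ z ∈ frontier (Metric.ball (0 : ℂ) 1), ‖z * p.eval z - 1‖ ≤ C := by
    intro z hz
    rw [frontier_ball _ one_ne_zero] at hz
    exact hz₀.2 (Set.mem_univ (⟨z, by simpa [Submonoid.unitSphere] using hz⟩ : Circle))
  have h2 := Complex.norm_le_of_forall_mem_frontier_norm_le (f := fun z => z * p.eval z - 1)
    Metric.isBounded_ball (by
      apply DifferentiableOn.diffContOnCl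
      exact (Differentiable.sub (differentiable_id.mul p.differentiable)
        (differentiable_const _)).differentiableOn) h1
    (subset_closure (Metric.mem_ball_self one_pos))
  simp only [zero_mul, zero_sub, norm_neg, norm_one] at h2
  linarith [h z₀]

lemma zc_not_unit : ¬ IsUnit (⟨zc, zc_mem⟩ : P) := by
  rintro ⟨u, hu⟩
  have h1 : (⟨zc, zc_mem⟩ : P) * (↑u⁻¹ : P) = 1 := by rw [← hu]; exact u.mul_inv
  have h2 : ((↑u⁻¹ : P) : C(Circle, ℂ)) ∈ closure ((Algebra.adjoin ℂ {zc} : Subalgebra ℂ _) :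
      Set C(Circle, ℂ)) := (↑u⁻¹ : P).2
  obtain ⟨q, hq, hd⟩ := Metric.mem_closure_iff.1 h2 1 one_pos
  rw [SetLike.mem_coe, Algebra.adjoin_singleton_eq_range_aeval] at hq
  obtain ⟨p, rfl⟩ := hq
  refine zc_mul_ne p fun z => ?_
  have h3 : (z : ℂ) * ((↑u⁻¹ : P) : C(Circle, ℂ)) z = 1 := by
    have := congrArg (fun f : P => (f : C(Circle, ℂ)) z) h1
    exact this
  have h4 : (Polynomial.aeval zc p : C(Circle, ℂ)) z = p.eval (z : ℂ) := by
    have := Polynomial.aeval_algHom_apply (ContinuousMap.evalAlgHom ℂ ℂ z) zc p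
    rw [show (ContinuousMap.evalAlgHom ℂ ℂ z) (Polynomial.aeval zc p) =
      (Polynomial.aeval zc p : C(Circle, ℂ)) z from rfl] at this
    rw [← this, Polynomial.aeval_def, Polynomial.eval₂_eq_eval_map]
    simp only [Polynomial.eval_map_algebraMap]
    simp only [Polynomial.aeval_def, Polynomial.eval₂_eq_eval_map, Algebra.algebraMap_self,
      Polynomial.map_id]
    rfl
  rw [← h3, ← mul_sub, norm_mul, Circle.norm_coe, one_mul, ← h4]
  rw [dist_comm, dist_eq_norm] at hd
  exact ((ContinuousMap.norm_coe_le_norm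
    ((Polynomial.aeval zc p : C(Circle, ℂ)) - ((↑u⁻¹ : P) : C(Circle, ℂ))) z)).trans_lt hd

/-- A character of `P` that vanishes at the coordinate function. -/
lemma exists_char : ∃ ψ : P →ₐ[ℂ] ℂ, ψ ⟨zc, zc_mem⟩ = 0 := by
  obtain ⟨f, hf⟩ := WeakDual.CharacterSpace.exists_apply_eq_zero zc_not_unit
  exact ⟨WeakDual.CharacterSpace.toAlgHom f, hf⟩

/-! ### The algebra -/

/-- The compact space `βN × [0,1] × 𝕋`, `N` being the countable set of finite binary words. -/
abbrev X : Type := Ultrafilter (List Bool) × (unitInterval × Circle)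

/-- The slice `f(y, t, ·)`. -/
noncomputable def slice (f : C(X, ℂ)) (y : Ultrafilter (List Bool)) (t : unitInterval) :
    C(Circle, ℂ) := ⟨fun z => f (y, t, z), by fun_prop⟩

/-- An ultrafilter is free when it contains no singleton. -/
def Free (y : Ultrafilter (List Bool)) : Prop := ∀ n : List Bool, {n} ∉ y

/-- The functions `f` on `X` such that, for every free `y`, all slices `f(y,t,·)` are in `P` and
`f(y,0,·)` is constant. -/
noncomputable def A : Subalgebra ℂ C(X, ℂ) where
  carrier := {f | ∀ y, Free y → (∀ t, slice f y t ∈ P) ∧ ∀ z w, f (y, 0, z) = f (y, 0, w)}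
  mul_mem' := fun {f g} hf hg y hy =>
    ⟨fun t => by
      have : slice (f * g) y t = slice f y t * slice g y t := rfl
      rw [this]; exact mul_mem ((hf y hy).1 t) ((hg y hy).1 t),
    fun z w => by
      rw [ContinuousMap.mul_apply, ContinuousMap.mul_apply, (hf y hy).2 z w, (hg y hy).2 z w]⟩
  add_mem' := fun {f g} hf hg y hy =>
    ⟨fun t => by
      have : slice (f + g) y t = slice f y t + slice g y t := rfl
      rw [this]; exact add_mem ((hf y hy).1 t) ((hg y hy).1 t),
    fun z w => by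
      rw [ContinuousMap.add_apply, ContinuousMap.add_apply, (hf y hy).2 z w, (hg y hy).2 z w]⟩
  algebraMap_mem' := fun c y hy =>
    ⟨fun t => by
      have : slice (algebraMap ℂ _ c) y t = algebraMap ℂ _ c := rfl
      rw [this]; exact Subalgebra.algebraMap_mem _ _,
    fun z w => rfl⟩

lemma mem_A (f : C(X, ℂ)) : f ∈ A ↔
    ∀ y, Free y → (∀ t, slice f y t ∈ P) ∧ ∀ z w, f (y, 0, z) = f (y, 0, w) := Iff.rfl

lemma continuous_slice (y : Ultrafilter (List Bool)) (t : unitInterval) :
    Continuous fun f : C(X, ℂ) => slice f y t :=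
  ContinuousMap.continuous_precomp (⟨fun z => (y, t, z), by fun_prop⟩ : C(Circle, X))

lemma isClosed_A : IsClosed (A : Set C(X, ℂ)) := by
  have : (A : Set C(X, ℂ)) = ⋂ y : Ultrafilter (List Bool), ⋂ _ : Free y,
      ((⋂ t, {f | slice f y t ∈ P}) ∩ ⋂ z, ⋂ w, {f : C(X, ℂ) | f (y, 0, z) = f (y, 0, w)}) := by
    ext f
    simp only [SetLike.mem_coe, mem_A, Set.mem_iInter, Set.mem_inter_iff, Set.mem_ofPred_eq]
  rw [this]
  refine isClosed_iInter fun y => isClosed_iInter fun _ => IsClosed.inter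
    (isClosed_iInter fun t => isClosed_P.preimage (continuous_slice y t))
    (isClosed_iInter fun z => isClosed_iInter fun w => isClosed_eq ?_ ?_)
  · exact continuous_eval_const _
  · exact continuous_eval_const _

instance : CompleteSpace A := isClosed_A.completeSpace_coe

/-! ### `A` is inverse closed in `C(X)` -/

/-- The reciprocal of a function without zeros. -/
noncomputable def recip (f : C(X, ℂ)) (hf : ∀ x, f x ≠ 0) : C(X, ℂ) :=
  ⟨fun x => (f x)⁻¹, f.continuous.inv₀ hf⟩

lemma slice_continuous (f : C(X, ℂ)) (y : Ultrafilter (List Bool)) :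
    Continuous fun t => slice f y t := by
  let F : C(unitInterval × Circle, ℂ) := ⟨fun p => f (y, p.1, p.2), by fun_prop⟩
  exact F.curry.continuous

lemma recip_mem (f : C(X, ℂ)) (hfA : f ∈ A) (hf : ∀ x, f x ≠ 0) : recip f hf ∈ A := by
  intro y hy
  obtain ⟨h1, h2⟩ := hfA y hy
  refine ⟨?_, fun z w => by
    change (f _)⁻¹ = (f _)⁻¹
    rw [h2 z w]⟩
  -- the set of good parameters
  let c : unitInterval → P := fun t => ⟨slice f y t, h1 t⟩
  have hc : Continuous c := (slice_continuous f y).subtype_mk _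
  set U : Set unitInterval := {t | slice (recip f hf) y t ∈ P} with hU
  have hU1 : IsClosed U := isClosed_P.preimage (slice_continuous _ y)
  have hU2 : U = c ⁻¹' {x | IsUnit x} := by
    ext t
    rw [Set.mem_preimage, Set.mem_ofPred_eq]
    change slice (recip f hf) y t ∈ P ↔ IsUnit (c t)
    constructor
    · intro ht
      refine IsUnit.of_mul_eq_one ⟨slice (recip f hf) y t, ht⟩ ?_
      ext z
      change f (y, t, z) * (f (y, t, z))⁻¹ = 1
      exact mul_inv_cancel₀ (hf _)
    · rintro ⟨u, hu⟩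
      have e : slice (recip f hf) y t = ((↑u⁻¹ : P) : C(Circle, ℂ)) := by
        ext z
        have e1 : (↑u : P) * ↑u⁻¹ = 1 := u.mul_inv
        rw [hu] at e1
        have e2 : f (y, t, z) * ((↑u⁻¹ : P) : C(Circle, ℂ)) z = 1 :=
          congrArg (fun g : P => (g : C(Circle, ℂ)) z) e1
        change (f (y, t, z))⁻¹ = _
        exact inv_eq_of_mul_eq_one_right e2
      rw [e]
      exact (↑u⁻¹ : P).2
  have hU3 : IsOpen U := by
    rw [hU2]; exact Units.isOpen.preimage hc
  have h0 : (0 : unitInterval) ∈ U := by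
    have : slice (recip f hf) y 0 = algebraMap ℂ _ ((f (y, 0, 1))⁻¹) := by
      ext z
      change (f (y, 0, z))⁻¹ = (f (y, 0, 1))⁻¹
      rw [h2 z 1]
    rw [hU, Set.mem_ofPred_eq, this]
    exact Subalgebra.algebraMap_mem _ _
  have huniv : U = Set.univ := IsClopen.eq_univ ⟨hU1, hU3⟩ ⟨0, h0⟩
  intro t
  have : t ∈ U := by rw [huniv]; trivial
  exact this

/-! ### Characters -/

/-- The algebra `A` as a type. -/
def AA : Type := A

noncomputable instance : NormedCommRing AA := inferInstanceAs (NormedCommRing A)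
noncomputable instance : NormedAlgebra ℂ AA := inferInstanceAs (NormedAlgebra ℂ A)
instance : CompleteSpace AA := inferInstanceAs (CompleteSpace A)

/-- The function underlying an element of `AA`. -/
noncomputable def fn : AA →ₐ[ℂ] C(X, ℂ) := A.val

lemma fn_mem (f : AA) : fn f ∈ A := Subtype.property f

/-- Constructor. -/
def mk (f : C(X, ℂ)) (hf : f ∈ A) : AA := ⟨f, hf⟩

lemma fn_mk (f : C(X, ℂ)) (hf : f ∈ A) : fn (mk f hf) = f := rfl

lemma fn_injective : Function.Injective fn := Subtype.val_injective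

lemma norm_fn (f : AA) : ‖fn f‖ = ‖f‖ := rfl

/-- Evaluation at a point of `X`. -/
noncomputable def evHom (x : X) : AA →ₐ[ℂ] ℂ := (ContinuousMap.evalAlgHom ℂ ℂ x).comp fn

/-- Evaluation at a point of `X`, as a character. -/
noncomputable def ev (x : X) : WeakDual.characterSpace ℂ AA :=
  WeakDual.CharacterSpace.equivAlgHom.symm (evHom x)

lemma ev_apply (x : X) (f : AA) : ev x f = fn f x := rfl

lemma mem_spectrum_iff (f : AA) (c : ℂ) : c ∈ spectrum ℂ f ↔ ∃ x : X, fn f x = c := by
  constructor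
  · intro hc
    by_contra hne
    push Not at hne
    apply hc
    have h1 : ∀ x, (algebraMap ℂ C(X, ℂ) c - fn f) x ≠ 0 := fun x => by
      rw [ContinuousMap.sub_apply]
      exact sub_ne_zero.2 (Ne.symm (hne x))
    have h2 := recip_mem _ (sub_mem (Subalgebra.algebraMap_mem A c) (fn_mem f)) h1
    refine IsUnit.of_mul_eq_one (mk _ h2) ?_
    apply fn_injective
    rw [map_mul, fn_mk, map_sub, AlgHom.commutes, map_one]
    ext x
    exact mul_inv_cancel₀ (h1 x)
  · rintro ⟨x, hx⟩
    have := AlgHom.apply_mem_spectrum (evHom x) f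
    rw [← hx]
    exact this

/-- The countable generating set. -/
def S : Set (WeakDual.characterSpace ℂ AA) :=
  {φ | ∃ (n : List Bool) (k : ℕ), φ = ev (pure n, TopologicalSpace.denseSeq _ k)}

lemma S_countable : S.Countable := by
  have : S = Set.range fun p : List Bool × ℕ => ev (pure p.1, TopologicalSpace.denseSeq _ p.2) := by
    ext φ
    constructor
    · rintro ⟨n, k, rfl⟩; exact ⟨(n, k), rfl⟩
    · rintro ⟨⟨n, k⟩, rfl⟩; exact ⟨n, k, rfl⟩
  rw [this]
  exact Set.countable_range _

lemma dense_pts : Dense {x : X | ∃ (n : List Bool) (k : ℕ),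
    x = (pure n, TopologicalSpace.denseSeq _ k)} := by
  have h1 : Dense (Set.range (pure : List Bool → Ultrafilter (List Bool))) := denseRange_pure
  have h2 : Dense (Set.range (TopologicalSpace.denseSeq (unitInterval × Circle))) :=
    TopologicalSpace.denseRange_denseSeq _
  refine (h1.prod h2).mono ?_
  rintro ⟨y, p⟩ ⟨⟨n, rfl⟩, ⟨k, rfl⟩⟩
  exact ⟨n, k, rfl⟩

lemma spectrum_eq (f : AA) :
    spectrum ℂ f = closure ((fun φ : WeakDual.characterSpace ℂ AA => φ f) '' S) := by
  have h0 : (fun φ : WeakDual.characterSpace ℂ AA => φ f) '' S =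
      (fn f) '' {x : X | ∃ (n : List Bool) (k : ℕ),
        x = (pure n, TopologicalSpace.denseSeq _ k)} := by
    ext c
    constructor
    · rintro ⟨_, ⟨n, k, rfl⟩, rfl⟩; exact ⟨_, ⟨n, k, rfl⟩, rfl⟩
    · rintro ⟨_, ⟨n, k, rfl⟩, rfl⟩; exact ⟨_, ⟨n, k, rfl⟩, rfl⟩
  rw [h0]
  have h1 : spectrum ℂ f = Set.range (fn f) := by
    ext c; exact mem_spectrum_iff f c
  rw [h1]
  have hcl : IsClosed (Set.range (fn f)) :=
    (isCompact_range (fn f).continuous).isClosed
  apply subset_antisymm
  · rw [← Set.image_univ, ← dense_pts.closure_eq]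
    exact image_closure_subset_closure_image (fn f).continuous
  · exact closure_minimal (Set.image_subset_range _ _) hcl

/-! ### The Gelfand space is not separable -/

/-- The set of prefixes of a branch. -/
def pre (b : ℕ → Bool) : Set (List Bool) := {l | ∃ n : ℕ, l = (List.range n).map b}

lemma pre_infinite (b : ℕ → Bool) : (pre b).Infinite := by
  have : pre b = Set.range fun n : ℕ => (List.range n).map b := by
    ext l; constructor
    · rintro ⟨n, rfl⟩; exact ⟨n, rfl⟩
    · rintro ⟨n, rfl⟩; exact ⟨n, rfl⟩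
  rw [this]
  refine Set.infinite_range_of_injective fun m n h => ?_
  have := congrArg List.length h
  simpa using this

lemma pre_inter_finite (b c : ℕ → Bool) (hbc : b ≠ c) : (pre b ∩ pre c).Finite := by
  obtain ⟨k, hk⟩ := Function.ne_iff.1 hbc
  refine (Set.finite_range fun n : Fin (k + 1) => (List.range n).map b).subset ?_
  rintro l ⟨⟨n, rfl⟩, ⟨m, hm⟩⟩
  have hnm : n = m := by
    have := congrArg List.length hm
    simpa using this
  subst hnm
  have hn : n < k + 1 := by
    by_contra hlt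
    apply hk
    have h1 : k < n := by omega
    have h2 := congrArg (fun l => l[k]?) hm
    simpa [h1] using h2
  exact ⟨⟨n, hn⟩, rfl⟩

/-- Membership of a fixed set in the ultrafilter, as a continuous `0`-`1` function. -/
noncomputable def ind (s : Set (List Bool)) : C(X, ℂ) :=
  ⟨Set.indicator {x : X | s ∈ x.1} (fun _ => 1), by
    have h : IsClopen {u : Ultrafilter (List Bool) | s ∈ u} :=
      ⟨ultrafilter_isClosed_basic s, ultrafilter_isOpen_basic s⟩
    have h2 : IsClopen {x : X | s ∈ x.1} := h.preimage continuous_fst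
    refine Continuous.indicator ?_ continuous_const
    rw [h2.frontier_eq]
    exact fun x hx => absurd hx (Set.notMem_empty x)⟩

lemma ind_of_mem (s : Set (List Bool)) (x : X) (h : s ∈ x.1) : ind s x = 1 :=
  Set.indicator_of_mem (s := {x : X | s ∈ x.1}) h (fun _ => (1 : ℂ))

lemma ind_of_notMem (s : Set (List Bool)) (x : X) (h : s ∉ x.1) : ind s x = 0 :=
  Set.indicator_of_notMem (s := {x : X | s ∈ x.1}) h (fun _ => (1 : ℂ))

lemma ind_mem (s : Set (List Bool)) : ind s ∈ A := by
  intro y hy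
  by_cases h : s ∈ y
  · refine ⟨fun t => ?_, fun z w => ?_⟩
    · have : slice (ind s) y t = 1 := by
        ext z; exact ind_of_mem s _ h
      rw [this]; exact one_mem _
    · rw [ind_of_mem s _ h, ind_of_mem s _ h]
  · refine ⟨fun t => ?_, fun z w => ?_⟩
    · have : slice (ind s) y t = 0 := by
        ext z; exact ind_of_notMem s _ h
      rw [this]; exact zero_mem _
    · rw [ind_of_notMem s _ h, ind_of_notMem s _ h]

lemma ind_mul_mem (s : Set (List Bool)) (hs : s.Finite) (k : C(X, ℂ)) : ind s * k ∈ A := by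
  intro y hy
  have h : s ∉ y := by
    intro hsy
    obtain ⟨n, -, hn⟩ := (Ultrafilter.finite_biUnion_mem_iff (f := y) (is := s)
      (s := fun n => ({n} : Set (List Bool))) hs).1 (by
        rw [Set.biUnion_of_singleton]; exact hsy)
    exact hy n hn
  refine ⟨fun t => ?_, fun z w => ?_⟩
  · have : slice (ind s * k) y t = 0 := by
      ext z
      change ind s (y, t, z) * k (y, t, z) = 0
      rw [ind_of_notMem s _ h, zero_mul]
    rw [this]; exact zero_mem _
  · rw [ContinuousMap.mul_apply, ContinuousMap.mul_apply, ind_of_notMem s _ h,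
      ind_of_notMem s _ h, zero_mul, zero_mul]

/-- The function `t`. -/
noncomputable def gt : C(X, ℂ) := ⟨fun x => ((x.2.1 : ℝ) : ℂ), by fun_prop⟩

/-- The function `t z`. -/
noncomputable def gz : C(X, ℂ) := ⟨fun x => ((x.2.1 : ℝ) : ℂ) * (x.2.2 : ℂ), by fun_prop⟩

/-- The function `t z̄`. -/
noncomputable def gw : C(X, ℂ) := ⟨fun x => ((x.2.1 : ℝ) : ℂ) * ((x.2.2⁻¹ : Circle) : ℂ),
  by fun_prop⟩

lemma gt_mem : gt ∈ A := fun y _ => by
  refine ⟨fun t => ?_, fun z w => rfl⟩
  have : slice gt y t = algebraMap ℂ _ ((t : ℝ) : ℂ) := rfl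
  rw [this]; exact Subalgebra.algebraMap_mem _ _

lemma gz_mem : gz ∈ A := fun y _ => by
  refine ⟨fun t => ?_, fun z w => by simp [gz]⟩
  have : slice gz y t = ((t : ℝ) : ℂ) • zc := rfl
  rw [this]; exact Subalgebra.smul_mem _ zc_mem _

lemma norm_le_one_of (f : C(X, ℂ)) (hf : f ∈ A) (h : ∀ x, ‖f x‖ ≤ 1)
    (φ : WeakDual.characterSpace ℂ AA) : ‖φ (mk f hf)‖ ≤ 1 := by
  have h1 : φ (mk f hf) ∈ spectrum ℂ (mk f hf) := AlgHom.apply_mem_spectrum φ _
  rw [mem_spectrum_iff] at h1
  obtain ⟨x, hx⟩ := h1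
  rw [← hx]
  exact h x

/-- The open sets. -/
def V (b : ℕ → Bool) : Set (WeakDual.characterSpace ℂ AA) :=
  {φ | ‖φ (mk _ (ind_mem (pre b))) - 1‖ < 1 / 2 ∧ ‖φ (mk _ gz_mem)‖ < 1 / 4 ∧
    ‖φ (mk _ gt_mem) - 1‖ < 1 / 4}

lemma continuous_apply (f : AA) :
    Continuous fun φ : WeakDual.characterSpace ℂ AA => φ f :=
  (WeakDual.eval_continuous f).comp continuous_subtype_val

lemma isOpen_V (b : ℕ → Bool) : IsOpen (V b) := by
  refine (isOpen_lt ((continuous_apply _).sub continuous_const).norm continuous_const).inter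
    ((isOpen_lt (continuous_apply _).norm continuous_const).inter
      (isOpen_lt ((continuous_apply _).sub continuous_const).norm continuous_const))

lemma V_disjoint (b c : ℕ → Bool) (hbc : b ≠ c) : Disjoint (V b) (V c) := by
  rw [Set.disjoint_left]
  rintro φ ⟨h1, h2, h3⟩ ⟨h4, -, -⟩
  have hid : ∀ s : Set (List Bool), ‖φ (mk _ (ind_mem s)) - 1‖ < 1 / 2 →
      φ (mk _ (ind_mem s)) = 1 := by
    intro s hs
    have e : mk _ (ind_mem s) * mk _ (ind_mem s) = mk _ (ind_mem s) := by
      apply fn_injective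
      rw [map_mul, fn_mk]
      ext x
      rw [ContinuousMap.mul_apply]
      by_cases h : s ∈ x.1
      · rw [ind_of_mem s x h, mul_one]
      · rw [ind_of_notMem s x h, mul_zero]
    have e2 : φ (mk _ (ind_mem s)) * φ (mk _ (ind_mem s)) = φ (mk _ (ind_mem s)) := by
      rw [← map_mul, e]
    by_contra hne
    have : φ (mk _ (ind_mem s)) = 0 := by
      have e3 : φ (mk _ (ind_mem s)) * (φ (mk _ (ind_mem s)) - 1) = 0 := by
        rw [mul_sub, e2, mul_one, sub_self]
      rcases mul_eq_zero.1 e3 with h | h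
      · exact h
      · exact absurd (sub_eq_zero.1 h) hne
    rw [this, zero_sub, norm_neg, norm_one] at hs
    norm_num at hs
  have hb := hid _ h1
  have hc := hid _ h4
  set F := pre b ∩ pre c with hF
  have hFin : F.Finite := pre_inter_finite b c hbc
  -- `t² 1_F = (t z) (t z̄ 1_F)`
  have e1 : mk _ gt_mem * mk _ gt_mem * (mk _ (ind_mem (pre b)) * mk _ (ind_mem (pre c))) =
      mk _ gz_mem * mk _ (ind_mul_mem F hFin gw) := by
    apply fn_injective
    simp only [map_mul, fn_mk]
    ext x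
    simp only [ContinuousMap.mul_apply]
    by_cases h : F ∈ x.1
    · have h' := Filter.inter_mem_iff.1 h
      rw [ind_of_mem F x h, ind_of_mem _ x h'.1, ind_of_mem _ x h'.2]
      change ((x.2.1 : ℝ) : ℂ) * ((x.2.1 : ℝ) : ℂ) * (1 * 1) =
        ((x.2.1 : ℝ) : ℂ) * (x.2.2 : ℂ) * (1 * (((x.2.1 : ℝ) : ℂ) * ((x.2.2⁻¹ : Circle) : ℂ)))
      rw [Circle.coe_inv]
      have : (x.2.2 : ℂ) ≠ 0 := Circle.coe_ne_zero _
      field_simp
    · rw [ind_of_notMem F x h]
      have h' : ¬ (pre b ∈ x.1 ∧ pre c ∈ x.1) := fun h' => h (Filter.inter_mem h'.1 h'.2)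
      by_cases hb' : pre b ∈ x.1
      · rw [ind_of_notMem (pre c) x fun hc' => h' ⟨hb', hc'⟩]; ring
      · rw [ind_of_notMem (pre b) x hb']; ring
  have e2 : φ (mk _ gt_mem) * φ (mk _ gt_mem) =
      φ (mk _ gz_mem) * φ (mk _ (ind_mul_mem F hFin gw)) := by
    have := congrArg φ e1
    simp only [map_mul, hb, hc, mul_one] at this
    exact this
  have h5 : ‖φ (mk _ (ind_mul_mem F hFin gw))‖ ≤ 1 := by
    apply norm_le_one_of
    intro x
    rw [ContinuousMap.mul_apply, norm_mul]
    have a1 : ‖ind F x‖ ≤ 1 := by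
      by_cases h : F ∈ x.1
      · rw [ind_of_mem F x h, norm_one]
      · rw [ind_of_notMem F x h, norm_zero]; exact zero_le_one
    have a2 : ‖gw x‖ ≤ 1 := by
      change ‖((x.2.1 : ℝ) : ℂ) * ((x.2.2⁻¹ : Circle) : ℂ)‖ ≤ 1
      rw [norm_mul, Circle.norm_coe, mul_one, Complex.norm_real, Real.norm_eq_abs, abs_le]
      exact ⟨by linarith [x.2.1.2.1], x.2.1.2.2⟩
    calc ‖ind F x‖ * ‖gw x‖ ≤ 1 * 1 := mul_le_mul a1 a2 (norm_nonneg _) zero_le_one
      _ = 1 := one_mul 1
  have h6 : 3 / 4 < ‖φ (mk _ gt_mem)‖ := by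
    have := norm_sub_norm_le (1 : ℂ) (1 - φ (mk _ gt_mem))
    rw [norm_one, sub_sub_cancel, norm_sub_rev] at this
    linarith
  have h7 : ‖φ (mk _ gt_mem)‖ * ‖φ (mk _ gt_mem)‖ ≤ 1 / 4 := by
    rw [← norm_mul, e2, norm_mul]
    calc _ ≤ ‖φ (mk _ gz_mem)‖ * 1 := mul_le_mul_of_nonneg_left h5 (norm_nonneg _)
      _ ≤ 1 / 4 := by rw [mul_one]; exact h2.le
  nlinarith

lemma V_nonempty (b : ℕ → Bool) : (V b).Nonempty := by
  obtain ⟨ψ, hψ⟩ := exists_char
  have hinf := pre_infinite b
  have hne : NeBot (cofinite ⊓ 𝓟 (pre b)) := hinf.cofinite_inf_principal_neBot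
  set y : Ultrafilter (List Bool) := Ultrafilter.of (cofinite ⊓ 𝓟 (pre b)) with hy
  have hle : (y : Filter (List Bool)) ≤ cofinite ⊓ 𝓟 (pre b) := Ultrafilter.of_le _
  have hyb : pre b ∈ y := (hle.trans inf_le_right) (Filter.mem_principal_self _)
  have hyf : Free y := by
    intro n hn
    have h1 : ({n} : Set (List Bool))ᶜ ∈ y :=
      (hle.trans inf_le_left) (Set.finite_singleton n).compl_mem_cofinite
    exact Ultrafilter.compl_notMem_iff.2 hn h1
  let σ : AA →ₐ[ℂ] P :=
    { toFun := fun f => ⟨slice (fn f) y 1, ((fn_mem f) y hyf).1 1⟩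
      map_one' := rfl
      map_mul' := fun f g => rfl
      map_zero' := rfl
      map_add' := fun f g => rfl
      commutes' := fun c => rfl }
  refine ⟨WeakDual.CharacterSpace.equivAlgHom.symm (ψ.comp σ), ?_, ?_, ?_⟩
  · change ‖ψ (σ (mk _ (ind_mem (pre b)))) - 1‖ < 1 / 2
    have : σ (mk _ (ind_mem (pre b))) = 1 := by
      apply Subtype.ext
      ext z
      exact ind_of_mem (pre b) _ hyb
    rw [this, map_one, sub_self, norm_zero]
    norm_num
  · change ‖ψ (σ (mk _ gz_mem))‖ < 1 / 4
    have : σ (mk _ gz_mem) = ⟨zc, zc_mem⟩ := by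
      apply Subtype.ext
      ext z
      change (((1 : unitInterval) : ℝ) : ℂ) * (z : ℂ) = z
      simp
    rw [this, hψ, norm_zero]
    norm_num
  · change ‖ψ (σ (mk _ gt_mem)) - 1‖ < 1 / 4
    have : σ (mk _ gt_mem) = 1 := by
      apply Subtype.ext
      ext z
      change (((1 : unitInterval) : ℝ) : ℂ) = 1
      simp
    rw [this, map_one, sub_self, norm_zero]
    norm_num

lemma not_separable : ¬ TopologicalSpace.SeparableSpace (WeakDual.characterSpace ℂ AA) := by
  intro hsep
  have h : Countable (ℕ → Bool) :=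
    Pairwise.countable_of_isOpen_disjoint (fun b c hbc => V_disjoint b c hbc) isOpen_V V_nonempty
  have h2 : (Cardinal.mk (ℕ → Bool)) ≤ Cardinal.aleph0 := Cardinal.mk_le_aleph0
  rw [← Cardinal.power_def] at h2
  simp only [Cardinal.mk_bool, Cardinal.mk_eq_aleph0, Cardinal.two_power_aleph0] at h2
  exact absurd h2 Cardinal.aleph0_lt_continuum.not_ge

/-- **A countably generated spectrum does not force a separable Gelfand space.** There is a unital
commutative Banach algebra `B`, whose norm satisfies `‖x²‖ = ‖x‖²` (a uniform algebra), such that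
for a countable set `S` of characters the spectrum of every `x : B` is the closure of
`{φ(x) : φ ∈ S}`, while the Gelfand space of `B` is not separable. -/
theorem result : ∃ (B : Type) (_ : NormedCommRing B) (_ : NormedAlgebra ℂ B) (_ : CompleteSpace B),
    (∀ x : B, ‖x * x‖ = ‖x‖ * ‖x‖) ∧
    (∃ S : Set (WeakDual.characterSpace ℂ B), S.Countable ∧
      ∀ x : B, spectrum ℂ x = closure ((fun φ : WeakDual.characterSpace ℂ B => φ x) '' S)) ∧
    ¬ TopologicalSpace.SeparableSpace (WeakDual.characterSpace ℂ B) := by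
  refine ⟨AA, inferInstance, inferInstance, inferInstance, ?_, ⟨S, S_countable, spectrum_eq⟩,
    not_separable⟩
  intro f
  rw [← norm_fn, ← norm_fn, map_mul]
  refine le_antisymm (norm_mul_le _ _) ?_
  have h1 : ‖fn f‖ ≤ √‖fn f * fn f‖ := by
    rw [ContinuousMap.norm_le _ (Real.sqrt_nonneg _)]
    intro x
    apply Real.le_sqrt_of_sq_le
    have h2 := ContinuousMap.norm_coe_le_norm (fn f * fn f) x
    rw [ContinuousMap.mul_apply, norm_mul, ← sq] at h2
    exact h2
  calc ‖fn f‖ * ‖fn f‖ ≤ √‖fn f * fn f‖ * √‖fn f * fn f‖ :=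
        mul_le_mul h1 h1 (norm_nonneg _) (Real.sqrt_nonneg _)
    _ = _ := Real.mul_self_sqrt (norm_nonneg _)

end Pool.Agent.Results.MP_3ada3c_an.NotSeparable
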